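import Pool.Agent.H95.ESP.Stmts

/-!
Row RAD of board esp: few integers have a small radical (the argument is `count_rad` of helper45).
-/

set_option autoImplicit false
set_option maxHeartbeats 1000000

namespace ESP.RADRow

/-- the multiplicative function `m ↦ m ^ (-η)`. -/
noncomputable def fpow (η : ℝ) : ℕ →* ℝ where
  toFun m := (m : ℝ) ^ (-η)
  map_one' := by simp
  map_mul' m n := by
    push_cast
    rw [Real.mul_rpow (by positivity) (by positivity)]

lemma euler_bound (η : ℝ) (hη : 0 < η) : ∃ K : ℝ, 0 < K ∧ ∀ r : ℕ, 1 ≤ r →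
    ∏ p ∈ r.primeFactors, (1 - (p : ℝ) ^ (-η))⁻¹ ≤ K * (r : ℝ) ^ η := by
  set p0 : ℕ := ⌈(2 : ℝ) ^ (1 / η)⌉₊ with hp0
  set K0 : ℝ := (1 - (2 : ℝ) ^ (-η))⁻¹ with hK0
  have h2 : (2 : ℝ) ^ (-η) < 1 := Real.rpow_lt_one_of_one_lt_of_neg (by norm_num) (by linarith)
  have h2' : 0 < (2 : ℝ) ^ (-η) := by positivity
  have hK01 : 1 ≤ K0 := by
    rw [hK0]; rw [one_le_inv₀ (by linarith)]; linarith
  have hpt : ∀ p : ℕ, p.Prime →
      (1 - (p : ℝ) ^ (-η))⁻¹ ≤ (if p < p0 then K0 else 1) * (p : ℝ) ^ η := by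
    intro p hp
    have hp2 : (2 : ℝ) ≤ p := by exact_mod_cast hp.two_le
    have hp1 : (1 : ℝ) ≤ (p : ℝ) ^ η := Real.one_le_rpow (by linarith) hη.le
    have hlt : (p : ℝ) ^ (-η) ≤ 2 ^ (-η) :=
      Real.rpow_le_rpow_of_nonpos (by norm_num) hp2 (by linarith)
    have hpos : 0 < 1 - (p : ℝ) ^ (-η) := by linarith
    split_ifs with hc
    · calc (1 - (p : ℝ) ^ (-η))⁻¹ ≤ K0 := by
            rw [hK0]; apply inv_anti₀ (by linarith); linarith
        _ = K0 * 1 := by ring
        _ ≤ K0 * (p : ℝ) ^ η := by gcongr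
    · rw [one_mul]
      push Not at hc
      have h3 : (2 : ℝ) ^ (1 / η) ≤ p := by
        calc (2 : ℝ) ^ (1 / η) ≤ p0 := Nat.le_ceil _
          _ ≤ p := by exact_mod_cast hc
      have h4 : (2 : ℝ) ≤ (p : ℝ) ^ η := by
        calc (2 : ℝ) = ((2 : ℝ) ^ (1 / η)) ^ η := by
              rw [← Real.rpow_mul (by norm_num), one_div, inv_mul_cancel₀ hη.ne', Real.rpow_one]
          _ ≤ (p : ℝ) ^ η := Real.rpow_le_rpow (by positivity) h3 hη.le
      have h5 : (p : ℝ) ^ (-η) ≤ 1 / 2 := by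
        rw [Real.rpow_neg (by linarith), one_div]
        exact inv_anti₀ (by norm_num) h4
      calc (1 - (p : ℝ) ^ (-η))⁻¹ ≤ (1 / 2 : ℝ)⁻¹ := by
            apply inv_anti₀ (by norm_num); linarith
        _ = 2 := by norm_num
        _ ≤ _ := h4
  refine ⟨K0 ^ p0, by positivity, ?_⟩
  intro r hr
  calc ∏ p ∈ r.primeFactors, (1 - (p : ℝ) ^ (-η))⁻¹
      ≤ ∏ p ∈ r.primeFactors, ((if p < p0 then K0 else 1) * (p : ℝ) ^ η) := by
        apply Finset.prod_le_prod
        · intro p hp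
          have hpp := Nat.prime_of_mem_primeFactors hp
          have hp2 : (2 : ℝ) ≤ p := by exact_mod_cast hpp.two_le
          have hlt : (p : ℝ) ^ (-η) ≤ 2 ^ (-η) :=
            Real.rpow_le_rpow_of_nonpos (by norm_num) hp2 (by linarith)
          have hpos : 0 < 1 - (p : ℝ) ^ (-η) := by linarith
          positivity
        · intro p hp
          exact hpt p (Nat.prime_of_mem_primeFactors hp)
    _ = (∏ p ∈ r.primeFactors, (if p < p0 then K0 else 1)) * ∏ p ∈ r.primeFactors, (p : ℝ) ^ η :=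
        Finset.prod_mul_distrib
    _ ≤ K0 ^ p0 * (r : ℝ) ^ η := by
        gcongr
        · rw [Finset.prod_ite, Finset.prod_const, Finset.prod_const_one, mul_one]
          apply pow_le_pow_right₀ hK01
          calc (r.primeFactors.filter (fun p => p < p0)).card ≤ (Finset.range p0).card := by
                apply Finset.card_le_card
                intro p hp
                rw [Finset.mem_filter] at hp
                exact Finset.mem_range.mpr hp.2
            _ = p0 := Finset.card_range _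
        · rw [Real.finsetProd_rpow]
          · apply Real.rpow_le_rpow
            · apply Finset.prod_nonneg; intro p _; positivity
            · rw [← Nat.cast_prod]
              exact_mod_cast Nat.le_of_dvd (by omega) (Nat.prod_primeFactors_dvd r)
            · exact hη.le
          · intro p _; positivity

/-- number of integers up to `Z` with given set of prime factors. -/
lemma count_fixed (η : ℝ) (hη : 0 < η) (Z : ℝ) (hZ : 1 ≤ Z) (s : Finset ℕ)
    (hs : ∀ p ∈ s, p.Prime) (T : Finset ℕ)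
    (hT : ∀ N ∈ T, 1 ≤ N ∧ (N : ℝ) ≤ Z ∧ N.primeFactors = s) :
    (T.card : ℝ) ≤ Z ^ η * ∏ p ∈ s, (1 - (p : ℝ) ^ (-η))⁻¹ := by
  have hE := (EulerProduct.summable_and_hasSum_factoredNumbers_prod_filter_prime_geometric
    (f := fpow η) (by
      intro p hp
      have hp2 : (1 : ℝ) < p := by exact_mod_cast hp.one_lt
      change ‖(p : ℝ) ^ (-η)‖ < 1
      rw [Real.norm_of_nonneg (by positivity)]
      exact Real.rpow_lt_one_of_one_lt_of_neg hp2 (by linarith)) s).2
  have hfil : s.filter Nat.Prime = s := Finset.filter_true_of_mem hs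
  rw [hfil] at hE
  have hE' : HasSum (Set.indicator (Nat.factoredNumbers s) (fun m : ℕ => (m : ℝ) ^ (-η)))
      (∏ p ∈ s, (1 - (p : ℝ) ^ (-η))⁻¹) := by
    rw [← hasSum_subtype_iff_indicator]
    exact hE
  have hsum : ∑ N ∈ T, (N : ℝ) ^ (-η) ≤ ∏ p ∈ s, (1 - (p : ℝ) ^ (-η))⁻¹ := by
    calc ∑ N ∈ T, (N : ℝ) ^ (-η)
        = ∑ N ∈ T, Set.indicator (Nat.factoredNumbers s) (fun m : ℕ => (m : ℝ) ^ (-η)) N := by
          apply Finset.sum_congr rfl
          intro N hN
          obtain ⟨h1, h2, h3⟩ := hT N hN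
          rw [Set.indicator_of_mem]
          rw [Nat.mem_factoredNumbers]
          refine ⟨by omega, ?_⟩
          intro p hp
          rw [← h3]
          exact Nat.mem_primeFactors_iff_mem_primeFactorsList.mpr hp
      _ ≤ _ := by
          apply sum_le_hasSum T _ hE'
          intro N _
          apply Set.indicator_nonneg
          intro m _
          positivity
  calc (T.card : ℝ) = ∑ N ∈ T, 1 := by simp
    _ ≤ ∑ N ∈ T, Z ^ η * (N : ℝ) ^ (-η) := by
        apply Finset.sum_le_sum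
        intro N hN
        obtain ⟨h1, h2, h3⟩ := hT N hN
        have hN0 : (0 : ℝ) < N := by exact_mod_cast h1
        rw [Real.rpow_neg hN0.le, ← div_eq_mul_inv, one_le_div (by positivity)]
        exact Real.rpow_le_rpow hN0.le h2 hη.le
    _ = Z ^ η * ∑ N ∈ T, (N : ℝ) ^ (-η) := by rw [Finset.mul_sum]
    _ ≤ _ := by gcongr

/-- the radical -/
def rad (N : ℕ) : ℕ := ∏ p ∈ N.primeFactors, p

lemma rad_pos (N : ℕ) : 0 < rad N :=
  Finset.prod_pos fun _ hp => (Nat.prime_of_mem_primeFactors hp).pos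

lemma count_rad (η : ℝ) (hη : 0 < η) : ∃ C : ℝ, 0 < C ∧ ∀ Z R : ℝ, 1 ≤ Z → 1 ≤ R →
    ∀ T : Finset ℕ, (∀ N ∈ T, 1 ≤ N ∧ (N : ℝ) ≤ Z ∧ (rad N : ℝ) ≤ R) →
    (T.card : ℝ) ≤ C * Z ^ η * R ^ (1 + η) := by
  obtain ⟨K, hK, hKb⟩ := euler_bound η hη
  refine ⟨K, hK, ?_⟩
  intro Z R hZ hR T hT
  have hmaps : ∀ N ∈ T, rad N ∈ Finset.Icc 1 ⌊R⌋₊ := by
    intro N hN
    rw [Finset.mem_Icc]
    exact ⟨rad_pos N, Nat.le_floor (hT N hN).2.2⟩
  have hcard := Finset.card_eq_sum_card_fiberwise hmaps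
  have hfib : ∀ r ∈ Finset.Icc 1 ⌊R⌋₊,
      (((T.filter (fun N => rad N = r)).card : ℕ) : ℝ) ≤ Z ^ η * (K * R ^ η) := by
    intro r hr
    rw [Finset.mem_Icc] at hr
    have hrR : (r : ℝ) ≤ R := (Nat.cast_le.mpr hr.2).trans (Nat.floor_le (by linarith))
    have h1 : (((T.filter (fun N => rad N = r)).card : ℕ) : ℝ) ≤
        Z ^ η * ∏ p ∈ r.primeFactors, (1 - (p : ℝ) ^ (-η))⁻¹ := by
      apply count_fixed η hη Z hZ r.primeFactors
        (fun p hp => Nat.prime_of_mem_primeFactors hp)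
      intro N hN
      rw [Finset.mem_filter] at hN
      obtain ⟨hN1, hN2⟩ := hN
      obtain ⟨ha, hb, _⟩ := hT N hN1
      refine ⟨ha, hb, ?_⟩
      rw [← hN2]
      unfold rad
      exact (Nat.primeFactors_prod (fun p hp => Nat.prime_of_mem_primeFactors hp)).symm
    refine h1.trans ?_
    gcongr
    exact (hKb r hr.1).trans (by gcongr)
  calc (T.card : ℝ)
      = ((∑ r ∈ Finset.Icc 1 ⌊R⌋₊, (T.filter (fun N => rad N = r)).card : ℕ) : ℝ) := by
        rw [hcard]
    _ = ∑ r ∈ Finset.Icc 1 ⌊R⌋₊, (((T.filter (fun N => rad N = r)).card : ℕ) : ℝ) := by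
        push_cast; rfl
    _ ≤ ∑ r ∈ Finset.Icc 1 ⌊R⌋₊, Z ^ η * (K * R ^ η) := Finset.sum_le_sum hfib
    _ = ⌊R⌋₊ * (Z ^ η * (K * R ^ η)) := by
        rw [Finset.sum_const, Nat.card_Icc, nsmul_eq_mul]; simp
    _ ≤ R * (Z ^ η * (K * R ^ η)) := by
        gcongr
        exact Nat.floor_le (by linarith)
    _ = K * Z ^ η * R ^ (1 + η) := by
        rw [Real.rpow_add (by linarith), Real.rpow_one]; ring
end ESP.RADRow

namespace ESP

theorem RAD : S_RAD := by
  intro η hη
  obtain ⟨C, hC, h⟩ := RADRow.count_rad η hη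
  exact ⟨C, hC, fun Z Y hZ hY T hT => h Z Y hZ hY T hT⟩

end ESP
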